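import Mathlib

/-!
# The first homology at infinity of a finitely presented group. Definitions.

A group `G` with generators `σ x`, `x ∈ X`, and relators `rel ρ`, `ρ ∈ R`. The vertices of the universal
cover of the presentation complex are the elements `g` of `G`, the edges the pairs `(g, x)`, from `g` to
`g (σ x)`, and for each `g` and `ρ` there is a two-cell whose boundary is the loop at `g` which reads the
word `rel ρ`. In a word the letter `(x, true)` stands for `x` and `(x, false)` for `x⁻¹`.
-/

set_option autoImplicit false

namespace Pool.Agent.Helper39.AHS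

noncomputable section

/-- The group presented by the generators `X` and the relators `rel`. -/
abbrev Gp {X R : Type} (rel : R → List (X × Bool)) : Type :=
  PresentedGroup (Set.range fun ρ => FreeGroup.mk (rel ρ))

/-- The generators of the presented group. -/
def gn {X R : Type} (rel : R → List (X × Bool)) : X → Gp rel := PresentedGroup.of

variable {X R G : Type} [Group G]

/-- The end of the edge path of one letter which starts at `g`. -/
def next (σ : X → G) (g : G) (p : X × Bool) : G := if p.2 then g * σ p.1 else g * (σ p.1)⁻¹

/-- The 1-chain of the edge path of one letter which starts at `g`. -/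
def edge (σ : X → G) (g : G) (p : X × Bool) : G × X →₀ ℤ :=
  if p.2 then Finsupp.single (g, p.1) 1 else -Finsupp.single (g * (σ p.1)⁻¹, p.1) 1

/-- The vertices of the edge path which starts at `g` and reads the word `l`. -/
def vertices (σ : X → G) (g : G) (l : List (X × Bool)) : List G := l.scanl (next σ) g

/-- The 1-chain of the edge path which starts at `g` and reads the word `l`. -/
def chain (σ : X → G) (g : G) (l : List (X × Bool)) : G × X →₀ ℤ :=
  ((vertices σ g l).zipWith (edge σ) l).sum

/-- The boundary of a 1-chain: the edge `(g, x)` goes to `g (σ x) - g`. -/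
def bd (σ : X → G) (z : G × X →₀ ℤ) : G →₀ ℤ :=
  z.sum fun e n => Finsupp.single (e.1 * σ e.2) n - Finsupp.single e.1 n

/-- `z` is a 1-cycle of the subcomplex of all cells with no vertex in `C`. -/
def Z1 (σ : X → G) (C : Finset G) (z : G × X →₀ ℤ) : Prop :=
  bd σ z = 0 ∧ ∀ e ∈ z.support, e.1 ∉ C ∧ e.1 * σ e.2 ∉ C

/-- The 1-boundaries of the subcomplex of all cells with no vertex in `C`: the group generated by the
boundaries of the two-cells with no vertex in `C`. -/
def B1 (σ : X → G) (rel : R → List (X × Bool)) (C : Finset G) : AddSubgroup (G × X →₀ ℤ) :=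
  AddSubgroup.closure {z | ∃ (g : G) (ρ : R), (∀ v ∈ vertices σ g (rel ρ), v ∉ C) ∧
    z = chain σ g (rel ρ)}

/-- Semistability (the Mittag-Leffler condition) of the inverse system of the groups `H_1(U_C)`, where
`U_C` is the subcomplex of the universal cover of the presentation complex formed by the cells with no
vertex in the finite set `C`: for every `C` there is `D` such that for every larger `E` the groups
`H_1(U_D)` and `H_1(U_E)` have the same image in `H_1(U_C)`. -/
def H1Semistable (σ : X → G) (rel : R → List (X × Bool)) : Prop :=
  ∀ C : Finset G, ∃ D : Finset G, C ⊆ D ∧ ∀ E : Finset G, D ⊆ E →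
    ∀ z, Z1 σ D z → ∃ z', Z1 σ E z' ∧ z - z' ∈ B1 σ rel C

/-- `G` is an ascending HNN extension, with stable letter `t`, of its finitely generated subgroup `A`:
`t⁻¹ A t` is contained in `A`, the group `G` is generated by `A` and `t`, and some homomorphism from `G`
to the integers is trivial on `A` and maps `t` to `1`. -/
def IsAscendingHNN (A : Subgroup G) (t : G) : Prop :=
  A.FG ∧ (∀ a ∈ A, t⁻¹ * a * t ∈ A) ∧ A ⊔ Subgroup.zpowers t = ⊤ ∧
    ∃ χ : G →* Multiplicative ℤ, (∀ a ∈ A, χ a = 1) ∧ χ t = Multiplicative.ofAdd 1

/-- The integral group ring of `G` embeds in a left Noetherian ring. -/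
def NoetherianEmbeddable (G : Type) [Group G] : Prop :=
  ∃ (E : Type) (_ : Ring E) (_ : IsNoetherianRing E) (f : MonoidAlgebra ℤ G →+* E),
    Function.Injective f

/-- `G` has a free subgroup of rank two. -/
def HasFreeSubgroup (G : Type) [Group G] : Prop :=
  ∃ f : FreeGroup Bool →* G, Function.Injective f

/-- The integral group ring of each finitely generated subgroup of the kernel of `χ` embeds in a left
Noetherian ring. -/
def KernelEmbeddable (χ : G →* Multiplicative ℤ) : Prop :=
  ∀ A : Subgroup G, A.FG → A ≤ χ.ker → NoetherianEmbeddable A

end

end Pool.Agent.Helper39.AHS
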