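import Pool.Agent.Helper39.AHS.Defs
import Pool.Agent.Helper39.AH.Final

set_option autoImplicit false

namespace Pool.Agent.Helper39.AHS

variable {X R G : Type} [Group G]

theorem vs_eq (σ : X → G) (l : List (X × Bool)) : ∀ g, AH.vs σ l g = vertices σ g l := by
  induction l with
  | nil => intro g; simp [AH.vs, vertices]
  | cons p l ih =>
    intro g
    obtain ⟨x, b⟩ := p
    cases b
    · simp only [AH.vs, ih, vertices, List.scanl_cons, next]
      simp
    · simp only [AH.vs, ih, vertices, List.scanl_cons, next]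
      simp

theorem ch_eq (σ : X → G) (l : List (X × Bool)) : ∀ g, AH.ch σ l g = chain σ g l := by
  induction l with
  | nil => intro g; simp [AH.ch, chain, vertices]
  | cons p l ih =>
    intro g
    obtain ⟨x, b⟩ := p
    cases b
    · simp only [AH.ch, ih, chain, vertices, List.scanl_cons, List.zipWith_cons_cons, List.sum_cons]
      simp [next, edge, sub_eq_neg_add]
    · simp only [AH.ch, ih, chain, vertices, List.scanl_cons, List.zipWith_cons_cons, List.sum_cons]
      simp [next, edge]

theorem B1_eq (σ : X → G) (rel : R → List (X × Bool)) (C : Finset G) :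
    AH.B1 σ rel C = B1 σ rel C := by
  unfold AH.B1 B1
  simp only [ch_eq, vs_eq]

theorem of_old {rel : R → List (X × Bool)} (h : AH.H1Semistable rel) :
    H1Semistable (gn rel) rel := by
  intro C
  obtain ⟨D, hCD, hD⟩ := h C
  refine ⟨D, hCD, fun E hE z hz => ?_⟩
  obtain ⟨z', hz', hB⟩ := hD E hE z hz
  rw [B1_eq] at hB
  exact ⟨z', hz', hB⟩

theorem asc [Finite X] [Finite R] (rel : R → List (X × Bool)) (A : Subgroup (Gp rel)) (t : Gp rel)
    (h : IsAscendingHNN A t) (hN : NoetherianEmbeddable A) : H1Semistable (gn rel) rel := by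
  obtain ⟨hA, hAt, hgen, χ, hχA, hχt⟩ := h
  exact of_old (AH.asc_semistable rel A t χ hA hAt hgen hχA hχt hN)

theorem noFree [Finite X] [Finite R] (rel : R → List (X × Bool))
    (hF : ¬ HasFreeSubgroup (Gp rel)) (χ : Gp rel →* Multiplicative ℤ)
    (hχ : Function.Surjective χ) (hN : KernelEmbeddable χ) : H1Semistable (gn rel) rel :=
  of_old (AH.noFree_semistable rel χ hχ hF hN)

end Pool.Agent.Helper39.AHS
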